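import Pool.Agent.helper48.AGR.Spec

/-!
# Project ag, row FIN
-/

set_option autoImplicit false

namespace Pool.Agent.AGR

open Monoid Function

private theorem conj_mono (hBAL : BAL_stmt) (G : Type) [Group G] (S : Finset G) (m n : ℕ)
    (h : m ≤ n) : conjGrowth (S : Set G) m ≤ conjGrowth (S : Set G) n := by
  obtain ⟨-, -, hsub, -, hfin⟩ := hBAL G S
  unfold conjGrowth
  apply Set.ncard_le_ncard
  · rintro c ⟨g, hg, rfl⟩
    exact ⟨g, hsub m n h hg, rfl⟩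
  · have h1 : {c : ConjClasses G | ∃ g ∈ Ball (S : Set G) n, ConjClasses.mk g = c} =
        ConjClasses.mk '' Ball (S : Set G) n := by
      ext c
      simp only [Set.mem_setOf_eq, Set.mem_image]
    rw [h1]
    exact (hfin n).1.image _

theorem FIN (hGRP : GRP_stmt) (hBAL : BAL_stmt) (hCUP : CUP_stmt) (hCLO : CLO_stmt)
    (hAUP : AUP_stmt) (hALO : ALO_stmt) : FIN_stmt := by
  obtain ⟨G, iG, v, π, t, z, s, e₀, a₀, hGD⟩ := hGRP
  refine ⟨G, iG, hGD.fg, ?_⟩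
  intro S hS
  refine ⟨⟨?_, ?_⟩, ⟨?_, ?_⟩⟩
  · refine ⟨2 * S.card + 1, by omega, ?_⟩
    intro n
    have h1 : ((conjGrowth (S : Set G) n : ℕ) : ℝ) ≤ ((2 * S.card + 1 : ℕ) : ℝ) ^ n := by
      exact_mod_cast hCUP G S n
    set C : ℕ := 2 * S.card + 1 with hC
    have hC1 : (1 : ℝ) ≤ (C : ℝ) := by
      rw [hC]; push_cast; linarith [Nat.cast_nonneg (α := ℝ) S.card]
    have h2 : ((C : ℕ) : ℝ) ≤ Real.exp C := by
      have := Real.add_one_le_exp (C : ℝ)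
      linarith
    have h3 : ((C : ℕ) : ℝ) ^ n ≤ Real.exp ((C : ℝ) * n) := by
      calc ((C : ℕ) : ℝ) ^ n ≤ (Real.exp C) ^ n := pow_le_pow_left₀ (by positivity) h2 n
        _ = Real.exp ((C : ℝ) * n) := by rw [← Real.exp_nat_mul, mul_comm]
    have h4 : Real.exp ((C : ℝ) * n) ≤ Real.exp (((C * n + C : ℕ)) : ℝ) := by
      apply Real.exp_le_exp.mpr
      push_cast
      linarith
    have h5 : Real.exp (((C * n + C : ℕ)) : ℝ) ≤ (C : ℝ) * Real.exp (((C * n + C : ℕ)) : ℝ) :=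
      le_mul_of_one_le_left (Real.exp_pos _).le hC1
    change ((conjGrowth (S : Set G) n : ℕ) : ℝ) ≤ (C : ℝ) * Real.exp (((C * n + C : ℕ)) : ℝ)
    linarith
  · obtain ⟨K, hK, hle⟩ := hCLO G v π t z s e₀ a₀ hGD S hS
    refine ⟨2 * K, by omega, ?_⟩
    intro n
    have h1 : Real.exp (n : ℝ) ≤ (2 : ℝ) ^ (2 * n) := by
      have h2 : Real.exp (n : ℝ) = (Real.exp 1) ^ n := by
        rw [← Real.exp_nat_mul, mul_one]
      rw [h2, pow_mul]
      apply pow_le_pow_left₀ (Real.exp_pos _).le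
      have := Real.exp_one_lt_d9
      norm_num
      linarith
    have h3 : (2 : ℝ) ^ (2 * n) ≤ ((conjGrowth (S : Set G) (K * (2 * n) + K) : ℕ) : ℝ) := by
      exact_mod_cast hle (2 * n)
    have h4 : ((conjGrowth (S : Set G) (K * (2 * n) + K) : ℕ) : ℝ) ≤
        ((conjGrowth (S : Set G) (2 * K * n + 2 * K) : ℕ) : ℝ) := by
      have h6 := conj_mono hBAL G S (K * (2 * n) + K) (2 * K * n + 2 * K) (by nlinarith)
      exact_mod_cast h6
    have hK1 : (1 : ℝ) ≤ ((2 * K : ℕ) : ℝ) := by exact_mod_cast (by omega : 1 ≤ 2 * K)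
    have h5 : ((conjGrowth (S : Set G) (2 * K * n + 2 * K) : ℕ) : ℝ) ≤
        ((2 * K : ℕ) : ℝ) * ((conjGrowth (S : Set G) (2 * K * n + 2 * K) : ℕ) : ℝ) :=
      le_mul_of_one_le_left (Nat.cast_nonneg _) hK1
    change Real.exp (n : ℝ) ≤
      ((2 * K : ℕ) : ℝ) * ((conjGrowth (S : Set G) (2 * K * n + 2 * K) : ℕ) : ℝ)
    linarith
  · obtain ⟨K, hK, hle⟩ := hAUP G v π t z s e₀ a₀ hGD S
    refine ⟨K, hK, ?_⟩
    intro n
    have hK1 : (1 : ℝ) ≤ (K : ℝ) := by exact_mod_cast hK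
    have h1 : ((autGrowth (S : Set G) n : ℕ) : ℝ) ≤ ((K * n + K : ℕ) : ℝ) := by
      exact_mod_cast hle n
    have h2 : ((K * n + K : ℕ) : ℝ) ≤ (K : ℝ) * ((K * n + K : ℕ) : ℝ) :=
      le_mul_of_one_le_left (Nat.cast_nonneg _) hK1
    change ((autGrowth (S : Set G) n : ℕ) : ℝ) ≤ (K : ℝ) * (((K * n + K : ℕ) : ℝ)) ^ 1
    rw [pow_one]
    linarith
  · obtain ⟨K, hK, hle⟩ := hALO G v π t z s e₀ a₀ hGD S hS
    refine ⟨K, hK, ?_⟩
    intro n
    have hK1 : (1 : ℝ) ≤ (K : ℝ) := by exact_mod_cast hK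
    have h1 : (n : ℝ) ≤ ((autGrowth (S : Set G) (K * n + K) : ℕ) : ℝ) := by
      exact_mod_cast hle n
    have h2 : ((autGrowth (S : Set G) (K * n + K) : ℕ) : ℝ) ≤
        (K : ℝ) * ((autGrowth (S : Set G) (K * n + K) : ℕ) : ℝ) :=
      le_mul_of_one_le_left (Nat.cast_nonneg _) hK1
    change (n : ℝ) ^ 1 ≤ (K : ℝ) * ((autGrowth (S : Set G) (K * n + K) : ℕ) : ℝ)
    rw [pow_one]
    linarith

end Pool.Agent.AGR
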